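import Pool.Agent.Lib_MP_cd200f_f.Fx4

/-!
# The spreads of a regular packing which are fixed by a collineation of odd prime order

Sketch of the proof. Let `g` be a linear map with `g ^ r = 1` which preserves the packing. A fixed
spread consists of the lines of `V` as a plane over a field `K = F[J]` of order `q ^ 2`, and `g` is
linear over `K`. If `r` divides `q ^ 2 + q + 1`, the fixed vectors of `g` form a line over `F` and
not over `K`, so there is no fixed spread. If `r` divides `q + 1`, then `g` is diagonal over `K`, so
it fixes either all lines of the spread or exactly two. On each fixed line `g + g⁻¹` is a scalar of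
`F`. If it has two values, then `g` fixes exactly two lines of `V` and so only one spread. If it has
one value, then the fixed lines form a regular spread. Either this is a member of the packing, and
the only fixed one, or each fixed member contains exactly two of its `q ^ 2 + 1` lines.
-/

namespace Pool.Agent.Results.MP_cd200f_co.FixedSpreads

open Module Pool.Agent.RegPack

/-- Let `q > 2`, let `P` be a packing of `PG(3, q)` by regular spreads, and let `g` be a linear
map which preserves `P` and induces a collineation of odd prime order `r`. If `r` divides
`q ^ 2 + q + 1`, then `g` fixes no member of `P`. If `r` divides `q + 1`, then either `g` fixes exactly one member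
of `P`, or `q` is odd, the lines fixed by `g` form a regular spread which is not a member of `P`,
each fixed member of `P` contains exactly two lines of this spread, and `g` fixes exactly
`(q ^ 2 + 1) / 2` members of `P`. -/
theorem result {F V : Type} [Field F] [Finite F] [AddCommGroup V] [Module F V]
    (hF : 2 < Nat.card F) (hV : finrank F V = 4) {P : Set (Set (Submodule F V))}
    (hP : IsPacking P) (hR : ∀ S ∈ P, IsRegular S) {g : V ≃ₗ[F] V} (hg : ∀ S ∈ P, im g S ∈ P)
    (hns : ¬ ∃ μ : F, ∀ v, g v = μ • v) {r : ℕ} (hr : r.Prime) (hr2 : r ≠ 2)
    (hc : ∃ c : F, ∀ v, (g ^ r) v = c • v) :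
    (r ∣ Nat.card F ^ 2 + Nat.card F + 1 → ∀ S ∈ P, im g S ≠ S) ∧
    (r ∣ Nat.card F + 1 →
      (∃! S, S ∈ P ∧ im g S = S) ∨
      (Odd (Nat.card F) ∧ IsSpread (fixedLines g) ∧ IsRegular (fixedLines g) ∧
        fixedLines g ∉ P ∧ (∀ S ∈ P, im g S = S → (S ∩ fixedLines g).ncard = 2) ∧
        2 * {S | S ∈ P ∧ im g S = S}.ncard = Nat.card F ^ 2 + 1)) := by
  obtain ⟨c, hc⟩ := hc
  exact fixed_main hF hV hP hR hg hns hr hr2 hc

end Pool.Agent.Results.MP_cd200f_co.FixedSpreads
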