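import Pool.Agent.Lib_MP_cd200f_co.Even

/-!
# Elements of prime order of the linear group of a regular packing
-/

namespace Pool.Agent.Results.MP_cd200f_co.PrimeOrder

open Module Pool.Agent.RegPack

/-- Let `q > 2`, let `P` be a packing of `PG(3, q)` by regular spreads, and let `g` be a linear
map which preserves `P` and induces a collineation of prime order `r`. If `r` is odd, then `r` does
not divide `q (q - 1)` and divides `(q + 1) (q ^ 2 + q + 1)`. If `r = 2` and `q` is odd, then `g`
fixes no point. If `r = 2` and `q` is even, then the fixed points of `g` are the points of a line. -/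
theorem result {F V : Type*} [Field F] [Finite F] [AddCommGroup V] [Module F V]
    (hF : 2 < Nat.card F) (hV : finrank F V = 4) {P : Set (Set (Submodule F V))}
    (hP : IsPacking P) (hR : ∀ S ∈ P, IsRegular S) {g : V ≃ₗ[F] V} (hg : ∀ S ∈ P, im g S ∈ P)
    (hns : ¬ ∃ μ : F, ∀ v, g v = μ • v) {r : ℕ} (hr : r.Prime)
    (hc : ∃ c : F, ∀ v, (g ^ r) v = c • v) :
    (r ≠ 2 → ¬ r ∣ Nat.card F * (Nat.card F - 1) ∧
      r ∣ (Nat.card F + 1) * (Nat.card F ^ 2 + Nat.card F + 1)) ∧
    (r = 2 → Odd (Nat.card F) → ∀ v, v ≠ 0 → ∀ x : F, g v ≠ x • v) ∧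
    (r = 2 → Even (Nat.card F) →
      ∃ U : Submodule F V, finrank F U = 2 ∧ ∀ v, v ∈ U ↔ ∃ x : F, g v = x • v) := by
  have := Fintype.ofFinite F
  obtain ⟨c, hc⟩ := hc
  have hc2 : r = 2 → ∀ v, g (g v) = c • v := by
    rintro rfl v
    rw [← hc, pow_two]
    rfl
  refine ⟨fun hr2 => odd_prime hF hV hP hR hg hr hr2 hc hns, fun hr2 hodd v hv x hx => ?_,
    fun hr2 heven => ?_⟩
  · refine no_inv hF ?_ hV hP hR hg (hc2 hr2) hns hv hx
    intro h2
    have h3 : ringChar F = 2 := by
      have h5 : ringChar F ∣ 2 := (ringChar.spec F 2).1 (by exact_mod_cast h2)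
      rcases (Nat.dvd_prime Nat.prime_two).1 h5 with h6 | h6
      · exfalso
        have h7 : ((1 : ℕ) : F) = 0 := (ringChar.spec F 1).2 (by rw [h6])
        rw [Nat.cast_one] at h7
        exact one_ne_zero h7
      · exact h6
    have h4 := FiniteField.even_card_of_char_two h3
    rw [Nat.card_eq_fintype_card, Nat.odd_iff] at hodd
    omega
  · refine inv_even hF ?_ hV hP hR hg (hc2 hr2) hns
    have h3 : ringChar F = 2 := by
      by_contra h
      have h4 := FiniteField.odd_card_of_char_ne_two h
      rw [Nat.card_eq_fintype_card, Nat.even_iff] at heven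
      omega
    have h4 := (ringChar.spec F 2).2 (by rw [h3])
    exact_mod_cast h4

end Pool.Agent.Results.MP_cd200f_co.PrimeOrder
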