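import Pool.Agent.Lib_MP_cd200f_s.Main

/-!
# Groups of collineations of regular packings of `PG(3, q)`
-/

namespace Pool.Agent.Results.MP_cd200f_co.SemiTransitive

open Module Pool.Agent.RegPack

/-- Let `H` be a group of semilinear bijections of `GF(q) ^ 4` which preserves a packing `P` of
`PG(3, q)` by regular spreads. (1) If `q` is `1` modulo `3`, some orbit of `H` on `P` has length
prime to `3`. (2) If `H` is transitive on the `q ^ 2 + q + 1` spreads of `P`, then `q` is `2` modulo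
`3`, or `q = 3 ^ h`, some prime `r` divides both `h` and `q ^ 2 + q + 1`, and `H` has an element
whose field automorphism has order `r`. -/
theorem result {F V : Type} [Field F] [Finite F] [AddCommGroup V] [Module F V]
    (hV : finrank F V = 4) {P : Set (Set (Submodule F V))} (hP : IsPacking P)
    (hR : ∀ S ∈ P, IsRegular S) (H : Subgroup (Equiv.Perm V))
    (hs : ∀ g ∈ H, ∃ σ : F ≃+* F, IsSemi σ g) (hH : ∀ g ∈ H, ∀ S ∈ P, sim g S ∈ P) :
    (Nat.card F % 3 = 1 → ∃ S ∈ P, ¬ 3 ∣ Set.ncard {T | ∃ g ∈ H, sim g S = T}) ∧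
    ((∀ S ∈ P, ∀ T ∈ P, ∃ g ∈ H, sim g S = T) →
      Nat.card F % 3 = 2 ∨ ∃ h r : ℕ, Nat.card F = 3 ^ h ∧ r.Prime ∧ r ∣ h ∧
        r ∣ Nat.card F ^ 2 + Nat.card F + 1 ∧
        ∃ g ∈ H, ∃ σ : F ≃+* F, orderOf σ = r ∧ IsSemi σ g) :=
  ⟨semi_orbit hV hP hR H hs hH, semi_trans hV hP hR H hs hH⟩

end Pool.Agent.Results.MP_cd200f_co.SemiTransitive
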