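import Pool.Agent.Lib_MP_cd200f_s.Sub4

/-!
# Collineations of a regular packing with the order of their field automorphism
-/

namespace Pool.Agent.Results.MP_cd200f_co.SubgeometryPacking

open Module Pool.Agent.RegPack

/-- Let `t` be a semilinear bijection of `GF(q) ^ 4` which preserves a packing `P` of `PG(3, q)` by
regular spreads, and suppose that `t ^ m` is scalar, `m` the order of the field automorphism `σ` of
`t`. Then `q = q₀ ^ m`, where `q₀` is the order of the fixed field `K` of `σ`, and the spreads of
`P` fixed by `t` induce a packing by regular spreads of a `PG(3, q₀)`. -/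
theorem result {F V : Type} [Field F] [Finite F] [AddCommGroup V] [Module F V]
    (hV : finrank F V = 4) {P : Set (Set (Submodule F V))} (hP : IsPacking P)
    (hR : ∀ S ∈ P, IsRegular S) {σ : F ≃+* F} {t : Equiv.Perm V} (ht : IsSemi σ t) {c : F}
    (hc : ∀ v, (t ^ orderOf σ) v = c • v) (htP : ∀ S ∈ P, sim t S ∈ P) :
    ∃ (K : Subfield F) (W : Submodule K V), (∀ x, x ∈ K ↔ σ x = x) ∧
      Nat.card K ^ orderOf σ = Nat.card F ∧ finrank K W = 4 ∧ IsPacking (induced t P W) ∧
      ∀ S ∈ induced t P W, IsRegular S :=
  sub_main hV hP hR ht hc htP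

end Pool.Agent.Results.MP_cd200f_co.SubgeometryPacking
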